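import Pool.Agent.H51R3.PS.Common
import Pool.Agent.H607R3.PS.Grade
import Pool.Agent.H594.PSRegP
import Pool.Agent.H841.PSRes
import Pool.Agent.H291R3.PSB.Base
import Pool.Agent.H633R3.PS.Loc

set_option autoImplicit false

/-!
# The ring `RR[[t]]/(s t)`: dimensions and grade
-/

namespace Pool.Agent.Q138.GR

open IsLocalRing Pool.Agent.H607R3.PS RR H51R3.PS

theorem length_le_dim {A : Type} [CommRing A] [IsLocalRing A] [IsNoetherianRing A] (rs : List A)
    (h : RingTheory.Sequence.IsRegular A rs) : ((rs.length : ℕ) : WithBot ℕ∞) ≤ ringKrullDim A := by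
  have h2 := ringKrullDim_add_length_eq_ringKrullDim_of_isRegular _ h
  have hnt : Nontrivial (A ⧸ Ideal.ofList rs) := by
    apply Ideal.Quotient.nontrivial_iff.2
    intro htop
    apply h.2
    rw [htop]
    simp
  have h0 : (0 : WithBot ℕ∞) ≤ ringKrullDim (A ⧸ Ideal.ofList rs) :=
    ringKrullDim_nonneg_of_nontrivial
  rw [← h2]
  calc ((rs.length : ℕ) : WithBot ℕ∞) = 0 + ((rs.length : ℕ) : WithBot ℕ∞) := by simp
    _ ≤ _ := by gcongr

variable {T : Type} [CommRing T] {α β γ : T}

/-- the class of the variable -/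
noncomputable def tt : RP T α β γ := Ideal.Quotient.mk _ PowerSeries.X

lemma s_tt : toRP (s : RR T α β γ) * tt = 0 := by
  rw [toRP, RingHom.comp_apply, tt, ← map_mul, Ideal.Quotient.eq_zero_iff_mem]
  exact Ideal.mem_span_singleton_self _

lemma decompP (f : RP T α β γ) : ∃ (u : RR T α β γ) (g : RP T α β γ), f = toRP u + tt * g := by
  obtain ⟨F, rfl⟩ := Ideal.Quotient.mk_surjective f
  obtain ⟨g, hg⟩ := Pool.Agent.H291R3.PSB.decomp1 F
  refine ⟨PowerSeries.constantCoeff F, Ideal.Quotient.mk _ g, ?_⟩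
  rw [toRP, RingHom.comp_apply, tt, ← map_mul, ← map_add, ← hg]

lemma decompP' (f : RP T α β γ) : ∃ (a b c : T) (g : RP T α β γ),
    f = toRP (emb a) + toRP (emb b) * toRP x + toRP (emb c) * toRP w + tt * g := by
  obtain ⟨u, g, h⟩ := decompP f
  refine ⟨u.a, u.b, u.c, g, ?_⟩
  rw [h, ← map_mul, ← map_mul, ← map_add, ← map_add, ← decomp u]

/-- the relations in `RP` -/
lemma rel_xs : toRP (x : RR T α β γ) * toRP s = 0 := by rw [← map_mul, xs, map_zero]
lemma rel_ws : toRP (w : RR T α β γ) * toRP s = 0 := by rw [← map_mul, ws, map_zero]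
lemma rel_xy : toRP (x : RR T α β γ) - toRP y = toRP (emb α) := by rw [← map_sub, x_sub_y]
lemma rel_sw : toRP (s : RR T α β γ) + toRP w = toRP (emb γ) := by rw [← map_add, s_add_w]
lemma rel_z : toRP (z : RR T α β γ) = toRP (emb β) := by rw [z_eq]

lemma rel_xx : toRP (x : RR T α β γ) ^ 2 =
    toRP (emb α) * toRP x + toRP (emb β) * toRP w := by
  rw [← map_pow, ← map_mul, ← map_mul, ← map_add]
  congr 1
  ext <;> simp [x, w, pow_two]

section local_
variable [IsLocalRing T] [IsNoetherianRing T] [IsDomain T]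

/-- the prime of height two -/
noncomputable def psi (T : Type) [CommRing T] (α β γ : T) : RP T α β γ →+* T ⧸ (Ideal.span {α, β} : Ideal T) :=
  Ideal.Quotient.lift _ ((Ideal.Quotient.mk (Ideal.span {α, β} : Ideal T)).comp
    ((fstR (T := T) (α := α) (β := β) (γ := γ)).comp
      (PowerSeries.constantCoeff (R := RR T α β γ)))) (by
    intro f hf
    rw [Ideal.mem_span_singleton] at hf
    obtain ⟨c, rfl⟩ := hf
    simp)

lemma psi_toRP (u : RR T α β γ) : psi T α β γ (toRP u) = Ideal.Quotient.mk _ u.a := by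
  rw [psi, toRP, RingHom.comp_apply, Ideal.Quotient.lift_mk]
  simp [fstR]

lemma psi_tt : psi T α β γ tt = 0 := by
  rw [psi, tt, Ideal.Quotient.lift_mk]
  simp [fstR]

lemma cP_le_ker : cP T α β γ ≤ RingHom.ker (psi T α β γ) := by
  rw [cP, cI, Ideal.span_le]
  rintro _ ⟨i, rfl⟩
  rw [SetLike.mem_coe, RingHom.mem_ker]
  have hα : Ideal.Quotient.mk (Ideal.span {α, β} : Ideal T) α = 0 :=
    Ideal.Quotient.eq_zero_iff_mem.2 (Ideal.subset_span (by simp))
  have hβ : Ideal.Quotient.mk (Ideal.span {α, β} : Ideal T) β = 0 :=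
    Ideal.Quotient.eq_zero_iff_mem.2 (Ideal.subset_span (by simp))
  have hx : psi T α β γ (toRP (x : RR T α β γ)) = 0 := by rw [psi_toRP]; simp [x]
  have hw : psi T α β γ (toRP (w : RR T α β γ)) = 0 := by rw [psi_toRP]; simp [w]
  have hy : psi T α β γ (toRP (y : RR T α β γ)) = 0 := by rw [psi_toRP]; simp [y, hα]
  have hz : psi T α β γ (toRP (z : RR T α β γ)) = 0 := by rw [psi_toRP]; simp [z, hβ]
  fin_cases i <;> simp [gens, hx, hw, hy, hz]

/-- the height-two prime -/
lemma ker_minimal (hB : Base T α β γ) :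
    RingHom.ker (psi T α β γ) ∈
      (Ideal.span {toRP (emb α : RR T α β γ), toRP (emb β)} : Ideal (RP T α β γ)).minimalPrimes := by
  have hp : (Ideal.span {α, β} : Ideal T).IsPrime := hB.prime2
  have hdom : IsDomain (T ⧸ (Ideal.span {α, β} : Ideal T)) := (Ideal.Quotient.isDomain_iff_prime _).2 hp
  have hprime : (RingHom.ker (psi T α β γ)).IsPrime := RingHom.ker_isPrime _
  have hα : toRP (emb α : RR T α β γ) ∈ RingHom.ker (psi T α β γ) := by
    rw [RingHom.mem_ker, psi_toRP, emb_a, Ideal.Quotient.eq_zero_iff_mem]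
    exact Ideal.subset_span (by simp)
  have hβ : toRP (emb β : RR T α β γ) ∈ RingHom.ker (psi T α β γ) := by
    rw [RingHom.mem_ker, psi_toRP, emb_a, Ideal.Quotient.eq_zero_iff_mem]
    exact Ideal.subset_span (by simp)
  refine ⟨⟨hprime, ?_⟩, ?_⟩
  · rw [Ideal.span_le]
    rintro t (rfl | rfl)
    · exact hα
    · exact hβ
  · rintro P ⟨hP, hPle⟩ hPQ
    have hαP : toRP (emb α : RR T α β γ) ∈ P := hPle (Ideal.subset_span (by simp))
    have hβP : toRP (emb β : RR T α β γ) ∈ P := hPle (Ideal.subset_span (by simp))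
    have hsP : toRP (s : RR T α β γ) ∉ P := by
      intro h
      have h1 := hPQ h
      rw [RingHom.mem_ker, psi_toRP, Ideal.Quotient.eq_zero_iff_mem] at h1
      exact hB.notMem (by simpa [s] using h1)
    have hxP : toRP (x : RR T α β γ) ∈ P := by
      have h1 : toRP (x : RR T α β γ) ^ 2 ∈ P := by
        rw [rel_xx]
        exact Ideal.add_mem _ (Ideal.mul_mem_right _ _ hαP) (Ideal.mul_mem_right _ _ hβP)
      exact hP.mem_of_pow_mem 2 h1
    have hwP : toRP (w : RR T α β γ) ∈ P := by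
      have h1 : toRP (w : RR T α β γ) * toRP s ∈ P := by rw [rel_ws]; exact P.zero_mem
      exact (hP.mem_or_mem h1).resolve_right hsP
    have htP : (tt : RP T α β γ) ∈ P := by
      have h1 : toRP (s : RR T α β γ) * tt ∈ P := by rw [s_tt]; exact P.zero_mem
      exact (hP.mem_or_mem h1).resolve_left hsP
    intro f hf
    obtain ⟨a, b, c, g, rfl⟩ := decompP' f
    have ha : a ∈ (Ideal.span {α, β} : Ideal T) := by
      have h1 : psi T α β γ (toRP (emb a : RR T α β γ)) = 0 := by
        have h2 := RingHom.mem_ker.1 hf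
        rw [map_add, map_add, map_add, map_mul, map_mul, map_mul, psi_tt] at h2
        have hx : psi T α β γ (toRP (x : RR T α β γ)) = 0 := by rw [psi_toRP]; simp [x]
        have hw : psi T α β γ (toRP (w : RR T α β γ)) = 0 := by rw [psi_toRP]; simp [w]
        rw [hx, hw] at h2
        simpa using h2
      rw [psi_toRP, emb_a, Ideal.Quotient.eq_zero_iff_mem] at h1
      exact h1
    have ha' : toRP (emb a : RR T α β γ) ∈ P := by
      have hle : (Ideal.span {α, β} : Ideal T) ≤ P.comap (toRP.comp (emb : T →+* RR T α β γ)) := by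
        rw [Ideal.span_le]
        rintro t (rfl | rfl)
        · exact hαP
        · exact hβP
      exact hle ha
    exact Ideal.add_mem _ (Ideal.add_mem _ (Ideal.add_mem _ ha' (Ideal.mul_mem_left _ _ hxP))
      (Ideal.mul_mem_left _ _ hwP)) (Ideal.mul_mem_right _ _ htP)

/-- **the grade** -/
theorem taskGradeP : TaskGradeP := by
  intro T _ _ _ _ α β γ hB
  rintro ⟨rs, hlen, hmem, hreg⟩
  have hmin := ker_minimal hB
  set Q := RingHom.ker (psi T α β γ) with hQ
  have hQp : Q.IsPrime := hmin.1.1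
  have hheight : Q.height ≤ 2 := by
    have h1 := Ideal.height_le_card_of_mem_minimalPrimes_span (Set.toFinite _) hmin
    refine h1.trans ?_
    have := Set.ncard_insert_le (toRP (emb α : RR T α β γ)) {toRP (emb β : RR T α β γ)}
    rw [Set.ncard_singleton] at this
    exact_mod_cast this
  have hreg' := hreg.isRegular_of_isLocalization_of_mem (Localization.AtPrime Q) Q
    (fun r hr => cP_le_ker (hmem r hr))
  have h2 := length_le_dim _ hreg'
  rw [IsLocalization.AtPrime.ringKrullDim_eq_height Q (Localization.AtPrime Q), List.length_map,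
    hlen] at h2
  have h4 : ((3 : ℕ) : ℕ∞) ≤ Q.height := WithBot.coe_le_coe.1 h2
  have h5 := h4.trans hheight
  exact absurd h5 (by decide)

/-- dimension of the whole ring -/
theorem dimP_ge (hB : Base T α β γ) : (4 : WithBot ℕ∞) ≤ ringKrullDim (RP T α β γ) := by
  have h1 := dimA hB
  have h2 : ringKrullDim (RR T α β γ ⧸ (Ideal.span {RR.s} : Ideal (RR T α β γ))) + 1 ≤
      ringKrullDim (PowerSeries (RR T α β γ ⧸ (Ideal.span {RR.s} : Ideal (RR T α β γ)))) :=
    ringKrullDim_succ_le_ringKrullDim_powerseries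
  have h3 : ringKrullDim (PowerSeries (RR T α β γ ⧸ (Ideal.span {RR.s} : Ideal (RR T α β γ)))) ≤
      ringKrullDim (RP T α β γ) := by
    refine ringKrullDim_le_of_surjective (Ideal.Quotient.lift _
      (PowerSeries.map (Ideal.Quotient.mk (Ideal.span {RR.s} : Ideal (RR T α β γ)))) ?_) ?_
    · intro f hf
      rw [Ideal.mem_span_singleton] at hf
      obtain ⟨c, rfl⟩ := hf
      have : Ideal.Quotient.mk (Ideal.span {RR.s} : Ideal (RR T α β γ)) RR.s = 0 :=
        Ideal.Quotient.eq_zero_iff_mem.2 (Ideal.mem_span_singleton_self _)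
      rw [map_mul, map_mul, PowerSeries.map_C, this]
      simp
    · intro f
      obtain ⟨g, hg⟩ := PowerSeries.map_surjective _
        (Ideal.Quotient.mk_surjective (I := (Ideal.span {RR.s} : Ideal (RR T α β γ)))) f
      exact ⟨Ideal.Quotient.mk _ g, by rw [Ideal.Quotient.lift_mk]; exact hg⟩
  refine le_trans ?_ (h2.trans h3)
  calc (4 : WithBot ℕ∞) = 3 + 1 := by norm_num
    _ ≤ _ := by gcongr

/-- the residue map -/
noncomputable def phi (T : Type) [CommRing T] [IsLocalRing T] (α β γ : T)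
    (h : (Ideal.span {α, β} : Ideal T) ≤ maximalIdeal T) :
    RP T α β γ →+* T ⧸ maximalIdeal T :=
  (Ideal.Quotient.factor h).comp (psi T α β γ)

lemma span_le_max (hB : Base T α β γ) : (Ideal.span {α, β} : Ideal T) ≤ maximalIdeal T := by
  rw [hB.max]
  apply Ideal.span_mono
  intro t ht
  rw [Set.mem_insert_iff, Set.mem_singleton_iff] at ht
  rcases ht with rfl | rfl <;> simp

lemma prime_big (hB : Base T α β γ) (P : Ideal (RP T α β γ)) (hP : P.IsPrime)
    (h1 : cP T α β γ ≤ P) (h2 : toRP (emb γ : RR T α β γ) + tt ∈ P) (f : RP T α β γ)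
    (hf : phi T α β γ (span_le_max hB) f = 0) : f ∈ P := by
  have hg : ∀ i : Fin 7, gens (toRP (x : RR T α β γ)) (toRP y) (toRP z) (toRP w) (toRP s) i ∈ P :=
    fun i => h1 (Ideal.subset_span ⟨i, rfl⟩)
  have hy : toRP (y : RR T α β γ) ∈ P := by
    have h : toRP (y : RR T α β γ) ^ 3 ∈ P := hg 0
    exact hP.mem_of_pow_mem 3 h
  have hz : toRP (z : RR T α β γ) ∈ P := by
    have h : toRP (z : RR T α β γ) ^ 2 ∈ P := hg 1
    exact hP.mem_of_pow_mem 2 h
  have hx : toRP (x : RR T α β γ) ∈ P := by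
    have h : toRP (x : RR T α β γ) ^ 2 + toRP s ^ 2 * toRP z ∈ P := hg 3
    have h' : toRP (x : RR T α β γ) ^ 2 ∈ P :=
      (Ideal.add_mem_iff_left P (Ideal.mul_mem_left _ _ hz)).1 h
    exact hP.mem_of_pow_mem 2 h'
  have hw : toRP (w : RR T α β γ) ∈ P := by
    have h : toRP (w : RR T α β γ) ^ 4 + toRP s * toRP y * toRP z ∈ P := hg 4
    have h' : toRP (w : RR T α β γ) ^ 4 ∈ P :=
      (Ideal.add_mem_iff_left P (Ideal.mul_mem_left _ _ hz)).1 h
    exact hP.mem_of_pow_mem 4 h'
  have hα : toRP (emb α : RR T α β γ) ∈ P := by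
    rw [← rel_xy]; exact Ideal.sub_mem _ hx hy
  have hβ : toRP (emb β : RR T α β γ) ∈ P := by
    rw [← rel_z]; exact hz
  have hst : toRP (emb γ : RR T α β γ) ∈ P ∧ (tt : RP T α β γ) ∈ P := by
    have h : toRP (s : RR T α β γ) * tt ∈ P := by rw [s_tt]; exact P.zero_mem
    rcases hP.mem_or_mem h with h3 | h3
    · have h4 : toRP (emb γ : RR T α β γ) ∈ P := by
        rw [← rel_sw]; exact Ideal.add_mem _ h3 hw
      exact ⟨h4, (Ideal.add_mem_iff_right P h4).1 h2⟩
    · exact ⟨(Ideal.add_mem_iff_left P h3).1 h2, h3⟩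
  obtain ⟨a, b, c, g, rfl⟩ := decompP' f
  have ha : a ∈ maximalIdeal T := by
    have hx0 : psi T α β γ (toRP (x : RR T α β γ)) = 0 := by rw [psi_toRP]; simp [x]
    have hw0 : psi T α β γ (toRP (w : RR T α β γ)) = 0 := by rw [psi_toRP]; simp [w]
    have hpsi : psi T α β γ (toRP (emb a) + toRP (emb b) * toRP x + toRP (emb c) * toRP w + tt * g)
        = Ideal.Quotient.mk _ a := by
      rw [map_add, map_add, map_add, map_mul, map_mul, map_mul, psi_tt, hx0, hw0, psi_toRP, emb_a]
      simp only [mul_zero, zero_mul, add_zero]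
    rw [phi, RingHom.comp_apply, hpsi, Ideal.Quotient.factor_mk, Ideal.Quotient.eq_zero_iff_mem] at hf
    exact hf
  rw [hB.max] at ha
  have ha' : toRP (emb a : RR T α β γ) ∈ P := by
    have hle : (Ideal.span {α, β, γ} : Ideal T) ≤ P.comap (toRP.comp (emb : T →+* RR T α β γ)) := by
      rw [Ideal.span_le]
      rintro t (rfl | rfl | rfl)
      · exact hα
      · exact hβ
      · exact hst.1
    exact hle ha
  exact Ideal.add_mem _ (Ideal.add_mem _ (Ideal.add_mem _ ha' (Ideal.mul_mem_left _ _ hx))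
    (Ideal.mul_mem_left _ _ hw)) (Ideal.mul_mem_right _ _ hst.2)

theorem dim_le_one_of {A : Type} [CommRing A] [IsLocalRing A] [IsNoetherianRing A] (θ : A)
    (hθ : ¬ IsUnit θ) (h : ∀ P : Ideal A, P.IsPrime → θ ∈ P → ∀ f : A, ¬ IsUnit f → f ∈ P) :
    ringKrullDim A ≤ 1 := by
  have hmin : maximalIdeal A ∈ (Ideal.span {θ} : Ideal A).minimalPrimes := by
    refine ⟨⟨inferInstance, ?_⟩, ?_⟩
    · rw [Ideal.span_singleton_le_iff_mem]
      exact (mem_maximalIdeal _).2 hθ
    · rintro P ⟨hP, hPle⟩ -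
      intro b hb
      exact h P hP (hPle (Ideal.mem_span_singleton_self _)) b ((mem_maximalIdeal _).1 hb)
  have hpr : (Ideal.span {θ} : Ideal A).IsPrincipal := ⟨⟨θ, rfl⟩⟩
  have hh := Ideal.height_le_one_of_isPrincipal_of_mem_minimalPrimes _ _ hmin
  rw [← IsLocalRing.maximalIdeal_height_eq_ringKrullDim]
  exact_mod_cast hh

/-- dimension of the quotient -/
theorem dimQ_le (hB : Base T α β γ) :
    ringKrullDim (RP T α β γ ⧸ cP T α β γ) ≤ 1 := by
  obtain ⟨hα, hβ, hγ⟩ := mem_max hB
  have hloc : IsLocalRing (RR T α β γ) := Pool.Agent.H607R3.PS.taskLoc T α β γ hα hβ hγ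
  have hlocP : IsLocalRing (RP T α β γ) := local_RP
  have hnoe : IsNoetherianRing (RP T α β γ) := noeth_RP
  have hnt : Nontrivial (RP T α β γ ⧸ cP T α β γ) :=
    Ideal.Quotient.nontrivial_iff.2 (cP_ne_top hα hβ hγ)
  have hlocQ : IsLocalRing (RP T α β γ ⧸ cP T α β γ) :=
    IsLocalRing.of_surjective' (Ideal.Quotient.mk _) Ideal.Quotient.mk_surjective
  have hfield : IsDomain (T ⧸ maximalIdeal T) := Ideal.Quotient.isDomain _
  set φ := phi T α β γ (span_le_max hB) with hφ
  -- elements of the maximal ideal are killed by `φ`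
  have hkill : ∀ f : RP T α β γ, ¬ IsUnit f → φ f = 0 := by
    intro f hf
    have hsurj : Function.Surjective φ := by
      intro a
      obtain ⟨a, rfl⟩ := Ideal.Quotient.mk_surjective a
      refine ⟨toRP (emb a), ?_⟩
      rw [hφ, phi, RingHom.comp_apply, psi_toRP, emb_a, Ideal.Quotient.factor_mk]
    by_contra hne
    have hfd : IsField (T ⧸ maximalIdeal T) :=
      (Ideal.Quotient.maximal_ideal_iff_isField_quotient _).1 inferInstance
    obtain ⟨b, hb⟩ := hfd.mul_inv_cancel hne
    obtain ⟨g, rfl⟩ := hsurj b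
    have h0 : φ (1 - f * g) = 0 := by rw [map_sub, map_one, map_mul, hb, sub_self]
    rcases IsLocalRing.isUnit_or_isUnit_of_add_one
      (show (1 - f * g) + f * g = 1 by ring) with h | h
    · have := h.map φ
      rw [h0] at this
      exact not_isUnit_zero this
    · exact hf (isUnit_of_mul_isUnit_left h)
  set π := Ideal.Quotient.mk (cP T α β γ) with hπ
  set θ : RP T α β γ := toRP (emb γ : RR T α β γ) + tt with hθ
  have hθ0 : φ θ = 0 := by
    rw [hφ, phi, RingHom.comp_apply, hθ, map_add, psi_tt, psi_toRP, emb_a, add_zero,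
      Ideal.Quotient.factor_mk, Ideal.Quotient.eq_zero_iff_mem]
    exact hγ
  have hnotunit : ¬ IsUnit (π θ) := by
    intro hu
    -- `φ` factors through the quotient
    have hle : cP T α β γ ≤ RingHom.ker φ := by
      intro f hf
      rw [RingHom.mem_ker, hφ, phi, RingHom.comp_apply, RingHom.mem_ker.1 (cP_le_ker hf), map_zero]
    have h1 := hu.map (Ideal.Quotient.lift (cP T α β γ) φ (fun a ha => RingHom.mem_ker.1 (hle ha)))
    rw [hπ, Ideal.Quotient.lift_mk, hθ0] at h1
    exact not_isUnit_zero h1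
  refine dim_le_one_of (π θ) hnotunit ?_
  intro P hP hPθ b hb
  obtain ⟨f, rfl⟩ := Ideal.Quotient.mk_surjective b
  have hfu : ¬ IsUnit f := fun h => hb (h.map π)
  have hPc : (P.comap π).IsPrime := hP.comap π
  refine prime_big hB (P.comap π) hPc ?_ ?_ f (hkill f hfu)
  · intro u hu
    rw [Ideal.mem_comap, hπ, Ideal.Quotient.eq_zero_iff_mem.2 hu]
    exact P.zero_mem
  · rw [Ideal.mem_comap]
    exact hPθ

theorem taskDimP : TaskDimP := by
  intro T _ _ _ _ α β γ hB
  have h1 := dimP_ge hB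
  have h2 := dimQ_le hB
  calc (2 : WithBot ℕ∞) + ringKrullDim (RP T α β γ ⧸ cP T α β γ) ≤ 2 + 1 := by gcongr
    _ < 4 := by norm_num
    _ ≤ _ := h1

end local_

end Pool.Agent.Q138.GR
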